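import Pool.Agent.Lib.MP_49fa77_co.H30.Iface

/-!
# HC: the charges (tangent line of the sine at `π / 3`)
-/

set_option autoImplicit false

namespace FT58.AS.H64

open Real Set

/-- The tangent line of the sine at `π / 3`. -/
theorem sin_le_tangent (t : ℝ) (h0 : 0 ≤ t) (h1 : t ≤ π) :
    sin t ≤ √3 / 2 + (t - π / 3) / 2 := by
  have hc : ConcaveOn ℝ (Icc 0 π) sin := strictConcaveOn_sin_Icc.concaveOn
  have hd : HasDerivAt sin (1 / 2) (π / 3) := by
    have h := Real.hasDerivAt_sin (π / 3)
    rwa [Real.cos_pi_div_three] at h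
  have hp : (π / 3 : ℝ) ∈ Icc (0 : ℝ) π := ⟨by positivity, by linarith [Real.pi_pos]⟩
  have ht : t ∈ Icc (0 : ℝ) π := ⟨h0, h1⟩
  have hs : sin (π / 3) = √3 / 2 := Real.sin_pi_div_three
  rcases lt_trichotomy t (π / 3) with h | h | h
  · have h2 := hc.le_slope_of_hasDerivAt ht hp h hd
    rw [slope_def_field, le_div_iff₀ (by linarith), hs] at h2
    linarith
  · rw [h, hs]; linarith
  · have h2 := hc.slope_le_of_hasDerivAt hp ht h hd
    rw [slope_def_field, div_le_iff₀ (by linarith), hs] at h2
    linarith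

theorem hc_st : HcS := by
  refine ⟨fun ω h0 h1 => ?_, fun β ω h0 h1 h2 => ?_, fun x y z h => ?_⟩
  · have := sin_le_tangent (2 * ω) (by linarith) (by linarith)
    unfold Lc
    linarith
  · have := sin_le_tangent (ω - β) (by linarith) (by linarith [Real.pi_pos])
    unfold Lc
    linarith
  · unfold Lc
    linarith

end FT58.AS.H64
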